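import Pool.Agent.V7H10.VH

/-!
# Points with complex multiplication whose heights are near functions of the denominators of good approximations

Let `U` be a connected open subset of the line, and let `F_j` be matrices of analytic functions on `U`, for example bases of
the pieces of the Hodge filtration of a variation of Hodge structure in a flat basis, such that the functions of the field
generated by `x` and the entries which are algebraic over `ℂ(x)` are in `ℂ(x)`. Let `Γ` be a group of matrices such that all
polynomial relations over `ℂ[x]` between the entries of the `F_j` are relations between those of the `γ F_j`, for example the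
monodromy group. We consider the points `x` of `U` in a number field `K` and the matrices `M` with entries in the integers of
`K` all conjugates of which are at most `T ^ k`, `T` the height of `x`, which preserve the column spaces of all `F_j(x)`; if
`x` is a CM point, then there are endomorphisms `M` of the Hodge structure at `x` with distinct eigenvalues.

Let `α_1, …, α_m` be real numbers. We consider the natural numbers `q` with `‖q α_j - β_j‖ ≤ C q^(-τ)` for all `j`,
`‖x‖` the distance to the nearest integer; for `β = 0`, `C = 1`, `τ = 1 / m` these include the denominators of all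
best simultaneous approximations (the denominators of the convergents for `m = 1`). They form a very sparse sequence,
with gaps growing exponentially for almost all `α` if `τ = 1 / m`. Let `G` be a function with steps bounded below by a
positive constant and growth at most `v^b`, for example `a v^b`. We show: for all `α` in `ℝ^m` outside a set of Hausdorff
dimension at most `(m + κ) / (1 + τ)`, for ALL number fields `K` in `ℂ` and all `k`, for all but finitely many of these `q`:
EVERY point `x` of `K` in `InnerM U k` with a height within `q ^ κ` of `G(q)` has the property that all such `M` preserve the column spaces of all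
`γ F_j(x)`, `γ` in `Γ`, too; and if `Γ` is infinite and its stabilizers are finite, then none of the `M` has distinct
eigenvalues, so that `x` is not a CM point with small complex multiplication.
For `τ = 1 / m` and `κ < 1` the bound is less than `m`, so that the statement holds for almost all `α`.

Proof: the exceptional points of height at most `T` in the compact set are `O(T ^ ε)` in number for every
`ε > 0` (starting theorem `BoundedEndomorphisms` of this problem, for one parameter); the tool is
`Pool.Agent.N671.DA` (helper671); there are only countably many number fields in `ℂ`.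
-/

set_option autoImplicit false

open NumberField

namespace Pool.Agent.Results.MP_2794d1_ag.ApproximationHeightsH10

open Pool.Agent Pool.Agent.Y890.MV Pool.Agent.Y890.VH
open Pool.Agent.N671.DA (Solves Expanding expanding_pow)
open Pool.Agent.V7H10.VH (Win Idx countable_idx index win_of ht)

/-- **CM points with heights near functions of denominators of good approximations.** Let `U` be a nonempty connected open subset of `ℂ ^ X`, `|X| = 1`, `F_j` matrices of analytic functions on `U` with
`RegularM`, and `Γ` a subgroup of `GL_H(ℂ)` with `MonInv`, as in the starting theorem `BoundedEndomorphisms`.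
Let `G` have steps `≥ a > 0` and growth at most `v ^ b`, `0 ≤ κ ≤ 1`, `β` in `ℝ^m` and `τ > 0`. There is a set `E` in `ℝ^m`
of Hausdorff dimension at most `(m + κ) / (1 + τ)` such that for all `α` outside `E`, all number fields `K` in `ℂ`, all
`k ≥ 1`, all `C` and all large `q` with `‖q α_j - β_j‖ ≤ C q^(-τ)` for all `j`: for EVERY `x` in `K` with
`|height x - G q| ≤ q ^ κ` in `InnerM U k`: all matrices `M` with entries in the integers of `K` all conjugates of which are
at most `(height x) ^ k` which preserve the column spaces of all `F_j (x)` preserve those of all `γ F_j (x)`, `γ ∈ Γ`; and if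
`Γ` is infinite and only finitely many elements of `Γ` preserve the column spaces of all `F_j (z)`, for every `z ∈ U`, then
no such `M` has distinct eigenvalues. -/
theorem result {X H J : Type} [Fintype X] [DecidableEq X] [Nonempty X] [Fintype H] [DecidableEq H] [Fintype J]
    [DecidableEq J] {r : J → ℕ} {U : Set (X → ℂ)} {f : Sg H J r → (X → ℂ) → ℂ} (hX : Fintype.card X = 1)
    (hU : IsPreconnected U) (hUo : IsOpen U) (hne : U.Nonempty) (hf : ∀ i, AnalyticOnNhd ℂ (f i) U)
    (hreg : RegularM U f) (Γ : Subgroup (GL H ℂ)) (hΓ : ∀ γ ∈ Γ, MonInv U f (γ : Matrix H H ℂ)) :
    ∀ (G : ℕ → ℝ) (b : ℝ), Expanding G b → ∀ κ : ℝ, 0 ≤ κ → κ ≤ 1 → ∀ (m : ℕ) (β : Fin m → ℝ) (τ : ℝ), 0 < τ →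
      ∃ E : Set (Fin m → ℝ), dimH E ≤ ENNReal.ofReal ((m + κ) / (1 + τ)) ∧ ∀ α, α ∉ E →
        ∀ (K : IntermediateField ℚ ℂ) [NumberField K] (k : ℕ), 0 < k → ∀ C : ℝ, ∃ Q : ℕ, ∀ q : ℕ, Q ≤ q →
          Solves α β q (C * (q : ℝ) ^ (-τ)) → Win U f Γ K k (G q) ((q : ℝ) ^ κ) := by
  intro G b hG κ hκ hκ1 m β τ hτ
  have := countable_idx
  obtain ⟨S, hS, h⟩ := index hX hU hUo hne hf hreg Γ hΓ
  obtain ⟨E, hE, h2⟩ := Pool.Agent.V7H10.KE.approx S ht le_rfl hS hG hκ hκ1 β hτ
  rw [mul_zero, zero_add] at hE
  refine ⟨E, hE, fun α hα K hK k hk C => ?_⟩
  obtain ⟨Q, hQ⟩ := h2 α hα (⟨K, hK.to_finiteDimensional⟩, k) C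
  exact ⟨Q, fun q hq hs => win_of hk fun x hx hxU => h K k hk x (hQ q hq hs x hx) hxU⟩

end Pool.Agent.Results.MP_2794d1_ag.ApproximationHeightsH10
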