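import Pool.Agent.V7H10.VH

/-!
# Points with complex multiplication whose heights are near multiples, powers and orbits of a real number

Let `U` be a connected open subset of the line, and let `F_j` be matrices of analytic functions on `U`, for example bases of
the pieces of the Hodge filtration of a variation of Hodge structure in a flat basis, such that the functions of the field
generated by `x` and the entries which are algebraic over `ℂ(x)` are in `ℂ(x)`. Let `Γ` be a group of matrices such that all
polynomial relations over `ℂ[x]` between the entries of the `F_j` are relations between those of the `γ F_j`, for example the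
monodromy group. We consider the points `x` of `U` in a number field `K` and the matrices `M` with entries in the integers of
`K` all conjugates of which are at most `T ^ k`, `T` the height of `x`, which preserve the column spaces of all `F_j(x)`; if
`x` is a CM point, then there are endomorphisms `M` of the Hodge structure at `x` with distinct eigenvalues.

Let `f_0, f_1, …` be a sequence of positive functions on `(a, ∞)` with nondecreasing `f_j(x) / x`, for example `v_j x`,
`x ^ (v_j)` with `v_j ≥ 1`, or the orbit of `x` under a map `g` with nondecreasing `g(x) / x > 1`, and with exponent of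
convergence at most `τ` (the series of the `f_j(x) ^ (-t)` converge for `t > τ`; `τ = 0` for the orbits and powers), and let
`θ < 1`. We show: for all real `u > a` outside a set of Hausdorff dimension at most `τ / (1 - θ)` (of dimension ZERO for the
powers and the orbits), for ALL number fields `K` in `ℂ`, all `k`, all `c` and all large `j`: EVERY point `x` of `K` in
`InnerM U k` with a height within `c f_j(u) ^ θ` of `f_j(u)` has the property that all such `M` preserve the column spaces of all
`γ F_j(x)`, `γ` in `Γ`, too; and if `Γ` is infinite and its stabilizers are finite, then none of the `M` has distinct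
eigenvalues, so that `x` is not a CM point with small complex multiplication.

Proof: the exceptional points of height at most `T` in the compact set are `O(T ^ ε)` in number for every
`ε > 0` (starting theorem `BoundedEndomorphisms` of this problem, for one parameter); the tool is
`Pool.Agent.R482.ST` (helper482); there are only countably many number fields in `ℂ`.
-/

set_option autoImplicit false

open NumberField

namespace Pool.Agent.Results.MP_2794d1_ag.StarshapedHeightsH10

open Pool.Agent Pool.Agent.Y890.MV Pool.Agent.Y890.VH
open Pool.Agent.R482.ST (Starshaped Conv ex_mul ex_pow ex_orbit)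
open Pool.Agent.V7H10.VH (Win Idx countable_idx index win_of ht)

/-- **CM points with heights near multiples, powers and orbits of a real number.** Let `U` be a nonempty connected open subset of `ℂ ^ X`, `|X| = 1`, `F_j` matrices of analytic functions on `U` with
`RegularM`, and `Γ` a subgroup of `GL_H(ℂ)` with `MonInv`, as in the starting theorem `BoundedEndomorphisms`.
Let `s` be a starshaped sequence on `(a, ∞)` with exponent of convergence at most `τ`, `θ < 1`. There is a set `E` of real
numbers of Hausdorff dimension at most `τ / (1 - θ)` such that for all `u > a` outside `E`, all number fields `K` in `ℂ`, all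
`k ≥ 1`, all `c` and all large `j`: for EVERY `x` in `K` with `|height x - s_j u| ≤ c (s_j u) ^ θ` in `InnerM U k`: all
matrices `M` with entries in the integers of `K` all conjugates of which are at most `(height x) ^ k` which preserve the
column spaces of all `F_j (x)` preserve those of all `γ F_j (x)`, `γ ∈ Γ`; and if `Γ` is infinite and only finitely many
elements of `Γ` preserve the column spaces of all `F_j (z)`, for every `z ∈ U`, then no such `M` has distinct eigenvalues. -/
theorem result {X H J : Type} [Fintype X] [DecidableEq X] [Nonempty X] [Fintype H] [DecidableEq H] [Fintype J]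
    [DecidableEq J] {r : J → ℕ} {U : Set (X → ℂ)} {f : Sg H J r → (X → ℂ) → ℂ} (hX : Fintype.card X = 1)
    (hU : IsPreconnected U) (hUo : IsOpen U) (hne : U.Nonempty) (hf : ∀ i, AnalyticOnNhd ℂ (f i) U)
    (hreg : RegularM U f) (Γ : Subgroup (GL H ℂ)) (hΓ : ∀ γ ∈ Γ, MonInv U f (γ : Matrix H H ℂ)) :
    ∀ (s : ℕ → ℝ → ℝ) (a τ θ : ℝ), Starshaped a s → 0 ≤ τ → Conv a s τ → θ < 1 →
      ∃ E : Set ℝ, dimH E ≤ ENNReal.ofReal (τ / (1 - θ)) ∧ ∀ u : ℝ, a < u → u ∉ E →
        ∀ (K : IntermediateField ℚ ℂ) [NumberField K] (k : ℕ), 0 < k → ∀ c : ℝ, ∃ j₀ : ℕ, ∀ j : ℕ, j₀ ≤ j →
          Win U f Γ K k (s j u) (c * (s j u) ^ θ) := by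
  intro s a τ θ hs hτ hv hθ
  have := countable_idx
  obtain ⟨S, hS, h⟩ := index hX hU hUo hne hf hreg Γ hΓ
  obtain ⟨E, hE, h2⟩ := Pool.Agent.V7H10.KE.star S ht le_rfl hS hs hτ hv hθ
  rw [zero_add] at hE
  refine ⟨E, hE, fun u hu huE K hK k hk c => ?_⟩
  obtain ⟨j₀, hj₀⟩ := h2 u hu huE (⟨K, hK.to_finiteDimensional⟩, k) c
  exact ⟨j₀, fun j hj => win_of hk fun x hx hxU => h K k hk x (hj₀ j hj x hx) hxU⟩

end Pool.Agent.Results.MP_2794d1_ag.StarshapedHeightsH10
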