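import Pool.Agent.V7H10.VH

/-!
# Points with complex multiplication whose heights are near the orbits of Euler's function

Let `U` be a connected open subset of the line, and let `F_j` be matrices of analytic functions on `U`, for example bases of
the pieces of the Hodge filtration of a variation of Hodge structure in a flat basis, such that the functions of the field
generated by `x` and the entries which are algebraic over `ℂ(x)` are in `ℂ(x)`. Let `Γ` be a group of matrices such that all
polynomial relations over `ℂ[x]` between the entries of the `F_j` are relations between those of the `γ F_j`, for example the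
monodromy group. We consider the points `x` of `U` in a number field `K` and the matrices `M` with entries in the integers of
`K` all conjugates of which are at most `T ^ k`, `T` the height of `x`, which preserve the column spaces of all `F_j(x)`; if
`x` is a CM point, then there are endomorphisms `M` of the Hodge structure at `x` with distinct eigenvalues.

Let `φ_j` be the `j`-fold iterate of Euler's function, `g` a positive multiplicative function of at most polynomial growth,
with `g p ≤ M p` for the large primes and with different values at different large primes, for example `g m = m` or the sum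
of the divisors, let `G` be a function with steps bounded below by a positive constant and growth at most `v ^ b`, for
example `a v ^ b`, and let `κ < 1`. We show: there are ONE set `D` of natural numbers of density one and a function `J`
tending to infinity such that for ALL number fields `K` in `ℂ` and all `k` and all large `m` in `D`, for all `j ≤ J(m)`, with
`v = g(φ_j(m))`: EVERY point `x` of `K` in `InnerM U k` with a height within `v ^ κ` of `G(v)` has the property that all such `M` preserve the column spaces of all
`γ F_j(x)`, `γ` in `Γ`, too; and if `Γ` is infinite and its stabilizers are finite, then none of the `M` has distinct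
eigenvalues, so that `x` is not a CM point with small complex multiplication.

Proof: the exceptional points of height at most `T` in the compact set are `O(T ^ ε)` in number for every
`ε > 0` (starting theorem `BoundedEndomorphisms` of this problem, for one parameter); for one
number field, one `k` and one `j` the tool `Pool.Agent.N760.IT` (helper760) gives a set of density one of `m`, and a diagonal
argument (`Pool.Agent.V7H10.Diag`) gives one set and the function `J` for all of them.
-/

set_option autoImplicit false

open NumberField

namespace Pool.Agent.Results.MP_2794d1_ag.TotientOrbitHeightsH10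

open Pool.Agent Pool.Agent.Y890.MV Pool.Agent.Y890.VH
open Pool.Agent.N733.TG (LM Expanding)
open Pool.Agent.N760.IT (orb)
open Pool.Agent.N826.IT.Orb (AlmostAll)
open Pool.Agent.V7H10.VH (Win Idx countable_idx index win_of ht)

/-- **CM points with heights near the orbits of Euler's function.** Let `U` be a nonempty connected open subset of `ℂ ^ X`, `|X| = 1`, `F_j` matrices of analytic functions on `U` with
`RegularM`, and `Γ` a subgroup of `GL_H(ℂ)` with `MonInv`, as in the starting theorem `BoundedEndomorphisms`.
Let `g` be a function with `LM`, let `G` have steps `≥ a > 0` and growth at most `v ^ b`, `0 ≤ κ < 1`. There are a set `D` of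
natural numbers of density one and a function `J` tending to infinity such that for all number fields `K` in `ℂ`, all `k ≥ 1`
and all large `m ∈ D`, for all `j ≤ J m`: for EVERY `x` in `K` with `|height x - G (g (φ_j m))| ≤ (g (φ_j m)) ^ κ` in
`InnerM U k`: all matrices `M` with entries in the integers of `K` all conjugates of which are at most `(height x) ^ k` which
preserve the column spaces of all `F_j (x)` preserve those of all `γ F_j (x)`, `γ ∈ Γ`; and if `Γ` is infinite and only
finitely many elements of `Γ` preserve the column spaces of all `F_j (z)`, for every `z ∈ U`, then no such `M` has distinct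
eigenvalues. -/
theorem result {X H J : Type} [Fintype X] [DecidableEq X] [Nonempty X] [Fintype H] [DecidableEq H] [Fintype J]
    [DecidableEq J] {r : J → ℕ} {U : Set (X → ℂ)} {f : Sg H J r → (X → ℂ) → ℂ} (hX : Fintype.card X = 1)
    (hU : IsPreconnected U) (hUo : IsOpen U) (hne : U.Nonempty) (hf : ∀ i, AnalyticOnNhd ℂ (f i) U)
    (hreg : RegularM U f) (Γ : Subgroup (GL H ℂ)) (hΓ : ∀ γ ∈ Γ, MonInv U f (γ : Matrix H H ℂ)) :
    ∀ (g : ℕ → ℕ), LM g → ∀ (G : ℕ → ℝ) (b : ℝ), Expanding G b → ∀ κ : ℝ, 0 ≤ κ → κ < 1 →
      ∃ (D : Set ℕ) (J : ℕ → ℕ), AlmostAll (fun m => m ∈ D) ∧ Filter.Tendsto J Filter.atTop Filter.atTop ∧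
        ∀ (K : IntermediateField ℚ ℂ) [NumberField K] (k : ℕ), 0 < k → ∃ m₀ : ℕ, ∀ m : ℕ, m₀ ≤ m → m ∈ D →
          ∀ j ≤ J m, Win U f Γ K k (G (orb g j m)) ((orb g j m : ℝ) ^ κ) := by
  intro g hg G b hG κ hκ hκ1
  have := countable_idx
  obtain ⟨S, hS, h⟩ := index hX hU hUo hne hf hreg Γ hΓ
  obtain ⟨D, J, hD, hJ, h2⟩ := Pool.Agent.V7H10.KE.orbit S ht le_rfl hS hg hG hκ
    (by rw [mul_zero, zero_add]; exact hκ1)
  refine ⟨D, J, hD, hJ, fun K hK k hk => ?_⟩
  obtain ⟨m₀, hm₀⟩ := h2 (⟨K, hK.to_finiteDimensional⟩, k)
  exact ⟨m₀, fun m hm hmD j hj => win_of hk fun x hx hxU => h K k hk x (hm₀ m hm hmD j hj x hx) hxU⟩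

end Pool.Agent.Results.MP_2794d1_ag.TotientOrbitHeightsH10
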